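import Pool.Agent.H22.FProd2

namespace Pool.Agent.Results.MP_58728c_al.Factorization

/-- A class of groups, given as a predicate. -/
abbrev Cls := (G : Type) → [Group G] → Prop

/-- A formation of finite groups. -/
def Formation (F : Cls) : Prop :=
  (∀ (G : Type) [Group G], F G → Finite G) ∧ (∃ (G : Type) (_ : Group G), F G) ∧
  (∀ (G H : Type) [Group G] [Group H], Nonempty (G ≃* H) → F G → F H) ∧
  (∀ (G : Type) [Group G] (N : Subgroup G) [N.Normal], F G → F (G ⧸ N)) ∧
  (∀ (G : Type) [Group G] [Finite G] (M N : Subgroup G) [M.Normal] [N.Normal],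
    F (G ⧸ M) → F (G ⧸ N) → F (G ⧸ (M ⊓ N)))

/-- Saturated class. -/
def Saturated (F : Cls) : Prop := ∀ (G : Type) [Group G] [Finite G], F (G ⧸ frattini G) → F G

/-- The intersection of all saturated formations containing `G₀`. -/
def OneGen (G₀ : Type) [Group G₀] : Cls := fun G _ =>
  ∀ L : Cls, Formation L → Saturated L → L G₀ → L G

/-- The `H`-residual: the intersection of all normal subgroups with quotient in `H`. -/
def residual (H : Cls) (G : Type) [Group G] : Subgroup G :=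
  sInf {N | ∃ _ : N.Normal, H (G ⧸ N)}

/-- The product of two formations. -/
def Prod (F H : Cls) : Cls := fun G _ => Finite G ∧ F (residual H G)

/-- The product of the nonempty list of formations `A :: l`. -/
def prodL : Cls → List Cls → Cls
  | A, [] => A
  | A, B :: l => Prod A (prodL B l)

/-- Non-decomposable formation. -/
def NonDec (F : Cls) : Prop :=
  ¬ ∃ A B : Cls, Formation A ∧ Formation B ∧ A ≠ F ∧ B ≠ F ∧ F = Prod A B

theorem result (G₀ : Type) [Group G₀] [Finite G₀] (F : Cls) (hF : Formation F)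
    (hM : ∀ (G : Type) [Group G], F G → OneGen G₀ G) (hne : F ≠ Prod F F) :
    ∃ (A : Cls) (l : List Cls), (∀ X ∈ A :: l, Formation X ∧ NonDec X) ∧ F = prodL A l := by
  have k : ∀ X : Cls, Formation X ↔ H22.GLS.Fm X := fun X => by
    constructor
    · rintro ⟨h1, ⟨G, _, h0⟩, h2, h4, h5⟩
      have h : H22.FormLat.IsForm X := ⟨h1, h2, h4, fun G _ _ N L _ _ e a b =>
        h2 _ _ ⟨(QuotientGroup.quotientMulEquivOfEq e).trans QuotientGroup.quotientBot⟩ (h5 G N L a b)⟩
      exact ⟨h, H22.GLS.triv_mem h h0⟩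
    · rintro ⟨h, h0⟩
      exact ⟨h.1, ⟨_, _, h0⟩, h.2.1, h.2.2.1, fun G _ _ M N _ _ a b =>
        ((H22.FormLat.Fq.mk M a).inf h (H22.FormLat.Fq.mk N b)).quot h _ le_rfl⟩
  obtain ⟨l, a, b⟩ := H22.GLS.fact_main (e := Nat.card G₀) Nat.card_pos ((k F).1 hF)
    (fun G _ g => hM G g _ ((k _).2 H22.GLS.star_fm) H22.GLS.star_sat ⟨‹_›, fun p _ =>
      ⟨⊥, inferInstance, IsPGroup.of_bot, fun g _ => pow_card_eq_one'⟩⟩) hne
  obtain _ | ⟨A, l⟩ := l
  · exact absurd (b ▸ (H22.GLS.triv_pr H22.GLS.triv_fm).symm) hne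
  refine ⟨A, l, fun X hX => ⟨(k X).2 (a X hX).1, fun ⟨A, B, u, v, w⟩ =>
    (a X hX).2 ⟨A, B, (k A).1 u, (k B).1 v, w⟩⟩, b ▸ ?_⟩
  clear b
  induction l generalizing A with
  | nil => exact H22.GLS.pr_triv (a A (by simp)).1
  | cons B l ih => exact congrArg (Prod A) (ih B fun X hX => a X (List.mem_cons_of_mem _ hX))

end Pool.Agent.Results.MP_58728c_al.Factorization
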